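import Mathlib

set_option autoImplicit false
open Finset

namespace Pool.Agent.K7.H24.Centroid

variable {n : ℕ} [NeZero n]

/-- The vertex centroid of the polygon `v`: the average of its vertices. -/
noncomputable def vertexCentroid (v : ZMod n → ℂ) : ℂ := (∑ i, v i) / n

/-- A vertex-centroid move: some vertex `v i`, different from the centroid `m`, is replaced by a
point of the line through `v i` and `m`. -/
def Move (v v' : ZMod n → ℂ) : Prop :=
  ∃ i : ZMod n, v i ≠ vertexCentroid v ∧ ∃ p ∈ affineSpan ℝ ({v i, vertexCentroid v} : Set ℂ),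
    v' = Function.update v i p

/-- `W` is carried to `W'`: here `W` and `W'` are the vectors from the centroid to the vertices. -/
def R (W W' : ZMod n → ℂ) : Prop :=
  ∀ v : ZMod n → ℂ, (∀ i, v i - vertexCentroid v = W i) →
    ∃ v' : ZMod n → ℂ, (∀ i, v' i - vertexCentroid v' = W' i) ∧ Relation.ReflTransGen Move v v'

theorem R.refl (W : ZMod n → ℂ) : R W W := fun v hv => ⟨v, hv, Relation.ReflTransGen.refl⟩

theorem R.trans {W W' W'' : ZMod n → ℂ} (h : R W W') (h' : R W' W'') : R W W'' := by
  intro v hv
  obtain ⟨v', h1, h2⟩ := h v hv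
  obtain ⟨v'', h3, h4⟩ := h' v' h1
  exact ⟨v'', h3, h2.trans h4⟩

/-- The operation `W j ↦ W j + u j • W i`. -/
noncomputable def O (i : ZMod n) (u : ZMod n → ℝ) (W : ZMod n → ℂ) : ZMod n → ℂ :=
  fun j => W j + (u j : ℂ) * W i

/-- The vector `q_i`. -/
noncomputable def q (i : ZMod n) : ZMod n → ℝ := fun j => if j = i then 1 else -(1 / ((n : ℝ) - 1))

theorem R_move (hn : 3 ≤ n) (i : ZMod n) (t : ℝ) (W : ZMod n → ℂ) : R W (O i (fun j => t * q i j) W) := by
  intro v hv
  have hn0 : (n : ℂ) ≠ 0 := by exact_mod_cast (by omega : n ≠ 0)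
  have hn1 : (n : ℂ) - 1 ≠ 0 := by
    have : (n : ℂ) ≠ 1 := by exact_mod_cast (by omega : n ≠ 1)
    exact sub_ne_zero.2 this
  by_cases hi : v i = vertexCentroid v
  · refine ⟨v, ?_, Relation.ReflTransGen.refl⟩
    intro j
    have : W i = 0 := by rw [← hv i, hi, sub_self]
    unfold O
    rw [this, hv j]
    ring
  · set s : ℝ := t * n / (n - 1) with hs
    have hsc : (s : ℂ) = t * n / (n - 1) := by rw [hs]; push_cast; ring
    refine ⟨Function.update v i (v i + s * W i), ?_, ?_⟩
    · have hc : vertexCentroid (Function.update v i (v i + s * W i)) = vertexCentroid v + s / n * W i := by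
        unfold vertexCentroid
        rw [Finset.sum_update_of_mem (mem_univ i)]
        have : ∑ j, v j = v i + ∑ j ∈ univ \ {i}, v j := by
          rw [← Finset.add_sum_erase univ v (mem_univ i)]
          congr 1
          apply Finset.sum_congr _ (fun _ _ => rfl)
          ext x; simp
        rw [this]
        field_simp
        ring
      intro j
      rw [hc]
      by_cases hj : j = i
      · subst hj
        simp only [O, q, if_true]
        rw [Function.update_self, hsc, ← hv j]
        push_cast
        field_simp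
        ring
      · simp only [O, q, if_neg hj]
        rw [Function.update_of_ne hj, hsc, ← hv j]
        push_cast
        field_simp
        ring
    · apply Relation.ReflTransGen.single
      refine ⟨i, hi, v i + s * W i, ?_, rfl⟩
      rw [mem_affineSpan_pair_iff_exists_lineMap_eq]
      refine ⟨-s, ?_⟩
      rw [AffineMap.lineMap_apply, ← hv i]
      simp only [vsub_eq_sub, vadd_eq_add, Complex.real_smul, Complex.ofReal_neg]
      ring

omit [NeZero n] in
theorem O_O (i : ZMod n) (u u' : ZMod n → ℝ) (W : ZMod n → ℂ) :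
    O i u' (O i u W) = O i (fun j => u j + (1 + u i) * u' j) W := by
  funext j
  unfold O
  push_cast
  ring

omit [NeZero n] in
/-- The word that gives a transvection. -/
theorem word (hn : 3 ≤ n) {i j : ZMod n} (hij : i ≠ j) {ν : ℝ} (hν : ν ≠ 0) (W : ZMod n → ℂ) :
    O j (fun l => (ν - 1) * q j l)
    (O i (fun l => (((n : ℝ) - 1) ^ 2) * q i l)
    (O j (fun l => (-1 / 2 : ℝ) * q j l)
    (O i (fun l => (1 / ν - 1) * q i l)
    (O j (fun l => (1 : ℝ) * q j l)
    (O i (fun l => (1 / (1 + ((n : ℝ) - 1) ^ 2) - 1) * q i l) W))))) =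
    O j (fun l => (1 - 1 / ν) * ((n : ℝ) - 1) * (1 + 1 / (2 * ((n : ℝ) - 1) ^ 2)) *
      (q i l + 1 / ((n : ℝ) - 1) * q j l)) W := by
  have hn1 : (n : ℂ) - 1 ≠ 0 := by
    have : (n : ℂ) ≠ 1 := by exact_mod_cast (by omega : n ≠ 1)
    exact sub_ne_zero.2 this
  have hN : (1 + ((n : ℂ) - 1) ^ 2) ≠ 0 := by
    have h : (1 + ((n : ℝ) - 1) ^ 2) ≠ 0 := by positivity
    exact_mod_cast h
  have hνc : (ν : ℂ) ≠ 0 := by exact_mod_cast hν
  have hji : j ≠ i := hij.symm
  generalize hNdef : (n : ℝ) - 1 = N at *
  have hNc : (n : ℂ) - 1 = N := by rw [← hNdef]; push_cast; ring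
  rw [hNc] at hn1 hN
  funext l
  by_cases h1 : l = i
  · subst h1
    simp only [O, q, if_true, if_neg hij, if_neg hji, hNdef]
    push_cast
    field_simp
    ring
  · by_cases h2 : l = j
    · subst h2
      simp only [O, q, if_true, if_neg hij, if_neg hji, hNdef]
      push_cast
      field_simp
      ring
    · simp only [O, q, if_true, if_neg hij, if_neg hji, if_neg h1, if_neg h2, hNdef]
      push_cast
      field_simp
      ring

/-- The transvection obtained from the word. -/
theorem R_U (hn : 3 ≤ n) {i j : ZMod n} (hij : i ≠ j) (t : ℝ) (W : ZMod n → ℂ) :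
    R W (O j (fun l => t * (q i l + 1 / ((n : ℝ) - 1) * q j l)) W) := by
  have hN : 0 < (n : ℝ) - 1 := by
    have : (3 : ℝ) ≤ n := by exact_mod_cast hn
    linarith
  -- the word reaches every parameter but one
  have key : ∀ t : ℝ, t ≠ ((n : ℝ) - 1) * (1 + 1 / (2 * ((n : ℝ) - 1) ^ 2)) → ∀ W : ZMod n → ℂ,
      R W (O j (fun l => t * (q i l + 1 / ((n : ℝ) - 1) * q j l)) W) := by
    intro t ht W
    set c : ℝ := ((n : ℝ) - 1) * (1 + 1 / (2 * ((n : ℝ) - 1) ^ 2)) with hc
    have hc0 : 0 < c := by positivity
    have hct : c - t ≠ 0 := sub_ne_zero.2 (Ne.symm ht)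
    have hν : c / (c - t) ≠ 0 := div_ne_zero hc0.ne' hct
    have h := word hn hij hν W
    have h2 : (fun l => (1 - 1 / (c / (c - t))) * ((n : ℝ) - 1) * (1 + 1 / (2 * ((n : ℝ) - 1) ^ 2)) *
      (q i l + 1 / ((n : ℝ) - 1) * q j l)) =
      (fun l => t * (q i l + 1 / ((n : ℝ) - 1) * q j l)) := by
      funext l
      have : (1 - 1 / (c / (c - t))) * ((n : ℝ) - 1) * (1 + 1 / (2 * ((n : ℝ) - 1) ^ 2)) = t := by
        rw [mul_assoc, ← hc]
        field_simp
        ring
      rw [this]
    rw [h2] at h
    rw [← h]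
    exact (((((R_move hn i _ W).trans (R_move hn j _ _)).trans (R_move hn i _ _)).trans
      (R_move hn j _ _)).trans (R_move hn i _ _)).trans (R_move hn j _ _)
  by_cases ht : t = ((n : ℝ) - 1) * (1 + 1 / (2 * ((n : ℝ) - 1) ^ 2))
  · have ht2 : t / 2 ≠ ((n : ℝ) - 1) * (1 + 1 / (2 * ((n : ℝ) - 1) ^ 2)) := by
      rw [← ht]
      have : 0 < t := by rw [ht]; positivity
      intro h
      linarith
    have h := (key (t / 2) ht2 W).trans (key (t / 2) ht2 _)
    rw [O_O] at h
    have e : (fun l => t / 2 * (q i l + 1 / ((n : ℝ) - 1) * q j l) +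
        (1 + t / 2 * (q i j + 1 / ((n : ℝ) - 1) * q j j)) *
          (t / 2 * (q i l + 1 / ((n : ℝ) - 1) * q j l))) =
        (fun l => t * (q i l + 1 / ((n : ℝ) - 1) * q j l)) := by
      funext l
      have hjj : q i j + 1 / ((n : ℝ) - 1) * q j j = 0 := by
        simp only [q, if_neg hij.symm, if_true]; ring
      rw [hjj]; ring
    rwa [e] at h
  · exact key t ht W

/-- The elementary operation `W j ↦ W j + s • W i`, `W m ↦ W m - s • W i`. -/
theorem R_S (hn : 3 ≤ n) {i j m : ZMod n} (hij : i ≠ j) (him : i ≠ m) (s : ℝ)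
    (W : ZMod n → ℂ) :
    R W (O i (fun l => s * ((if l = j then 1 else 0) - (if l = m then 1 else 0))) W) := by
  have hN : 0 < (n : ℝ) - 1 := by
    have : (3 : ℝ) ≤ n := by exact_mod_cast hn
    linarith
  by_cases hjm : j = m
  · subst hjm
    have : O i (fun l => s * ((if l = j then 1 else 0) - (if l = j then 1 else 0))) W = W := by
      funext l
      unfold O
      simp
    rw [this]
    exact R.refl W
  set t : ℝ := s * (((n : ℝ) - 1) / n) with ht
  have hn0 : (0 : ℝ) < n := by linarith
  have h := (R_U hn hij.symm t W).trans (R_U hn him.symm (-t) _)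
  rw [O_O] at h
  have e : (fun l => t * (q j l + 1 / ((n : ℝ) - 1) * q i l) +
      (1 + t * (q j i + 1 / ((n : ℝ) - 1) * q i i)) *
        (-t * (q m l + 1 / ((n : ℝ) - 1) * q i l))) =
      (fun l => s * ((if l = j then 1 else 0) - (if l = m then 1 else 0))) := by
    funext l
    have hii : q j i + 1 / ((n : ℝ) - 1) * q i i = 0 := by
      simp only [q, if_neg hij, if_true]; ring
    rw [hii]
    have : t * (q j l + 1 / ((n : ℝ) - 1) * q i l) +
      (1 + t * 0) * (-t * (q m l + 1 / ((n : ℝ) - 1) * q i l)) = t * (q j l - q m l) := by ring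
    rw [this, ht]
    have hN' := hN.ne'
    by_cases h1 : l = j
    · subst h1
      simp only [q, if_true, if_neg hjm]
      field_simp
      ring
    · by_cases h2 : l = m
      · subst h2
        simp only [q, if_true, if_neg h1]
        field_simp
        ring
      · simp only [q, if_neg h1, if_neg h2]
        ring
  rwa [e] at h

/-- All operations with source `i` that fix `W i`. -/
theorem R_zero (hn : 3 ≤ n) (i : ZMod n) (u : ZMod n → ℝ) (hi : u i = 0) (hs : ∑ l, u l = 0)
    (W : ZMod n → ℂ) : R W (O i u W) := by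
  classical
  -- an index other than `i`
  have : Nontrivial (ZMod n) := ZMod.nontrivial_iff.2 (by omega)
  obtain ⟨m, hm⟩ := exists_ne i
  have key : ∀ s : Finset (ZMod n), i ∉ s → ∀ W : ZMod n → ℂ,
      R W (O i (fun l => ∑ j ∈ s, u j * ((if l = j then 1 else 0) - (if l = m then 1 else 0))) W) := by
    intro s
    induction s using Finset.induction_on with
    | empty =>
      intro _ W
      have : O i (fun l => ∑ j ∈ (∅ : Finset (ZMod n)),
          u j * ((if l = j then 1 else 0) - (if l = m then 1 else 0))) W = W := by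
        funext l
        simp [O]
      rw [this]
      exact R.refl W
    | insert a s ha ih =>
      intro his W
      rw [Finset.mem_insert, not_or] at his
      have h := (ih his.2 W).trans (R_S hn his.1 hm.symm (u a) _)
      rw [O_O] at h
      have e0 : ∑ j ∈ s, u j * (((if i = j then 1 else 0) : ℝ) - (if i = m then 1 else 0)) = 0 := by
        apply Finset.sum_eq_zero
        intro j hj
        have : i ≠ j := fun h => his.2 (h ▸ hj)
        rw [if_neg this, if_neg hm.symm]; ring
      rw [e0] at h
      convert h using 2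
      funext l
      rw [Finset.sum_insert ha]
      ring
  have h := key (univ.erase i) (Finset.notMem_erase _ _) W
  have e : (fun l => ∑ j ∈ univ.erase i,
      u j * (((if l = j then 1 else 0) : ℝ) - (if l = m then 1 else 0))) = u := by
    funext l
    have h1 : ∑ j ∈ univ.erase i, u j * (((if l = j then 1 else 0) : ℝ) - (if l = m then 1 else 0)) =
        ∑ j, u j * (((if l = j then 1 else 0) : ℝ) - (if l = m then 1 else 0)) := by
      rw [← Finset.add_sum_erase univ _ (mem_univ i), hi]; ring
    rw [h1]
    simp only [mul_sub, Finset.sum_sub_distrib, ← Finset.sum_mul, hs]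
    simp
  rwa [e] at h

/-- All operations with source `i`. -/
theorem R_O (hn : 3 ≤ n) (i : ZMod n) (u : ZMod n → ℝ) (hi : u i ≠ -1) (hs : ∑ l, u l = 0)
    (W : ZMod n → ℂ) : R W (O i u W) := by
  have hl : 1 + u i ≠ 0 := by
    intro h; apply hi; linarith
  have hN : 0 < (n : ℝ) - 1 := by
    have : (3 : ℝ) ≤ n := by exact_mod_cast hn
    linarith
  have hq : ∑ l, q i l = 0 := by
    unfold q
    rw [Finset.sum_ite, Finset.sum_const, Finset.sum_const]
    have h1 : (univ.filter (fun l => l = i)).card = 1 := by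
      rw [Finset.filter_eq' univ i, if_pos (mem_univ i), card_singleton]
    have h2 : (univ.filter (fun l => ¬ l = i)).card = n - 1 := by
      have := Finset.card_filter_add_card_filter_not (s := (univ : Finset (ZMod n))) (fun l => l = i)
      rw [h1, card_univ, ZMod.card] at this
      omega
    rw [h1, h2, nsmul_eq_mul, nsmul_eq_mul, Nat.cast_sub (by omega)]
    push_cast
    field_simp
    ring
  have h := (R_move hn i (u i) W).trans
    (R_zero hn i (fun l => (u l - u i * q i l) / (1 + u i)) ?_ ?_ _)
  · rw [O_O] at h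
    have e : (fun j => u i * q i j + (1 + u i * q i i) * ((u j - u i * q i j) / (1 + u i))) = u := by
      funext l
      have : q i i = 1 := by unfold q; rw [if_pos rfl]
      rw [this, mul_one]
      field_simp
      ring
    rwa [e] at h
  · have : q i i = 1 := by unfold q; rw [if_pos rfl]
    simp only [this]
    ring
  · rw [← Finset.sum_div, Finset.sum_sub_distrib, ← Finset.mul_sum, hs, hq]
    ring

end Pool.Agent.K7.H24.Centroid
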