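import Pool.Agent.K7.H24.Centroid

set_option autoImplicit false
open Finset

namespace Pool.Agent.K7.H24.Centroid

variable {n : ℕ} [NeZero n]

/-- The determinant of two vectors of the plane. -/
def det (z w : ℂ) : ℝ := z.re * w.im - z.im * w.re

theorem solve {z w : ℂ} (h : det z w ≠ 0) (p : ℂ) : ∃ a b : ℝ, p = a * z + b * w := by
  refine ⟨det p w / det z w, det z p / det z w, ?_⟩
  apply Complex.ext
  · simp only [Complex.add_re, Complex.mul_re, Complex.ofReal_re, Complex.ofReal_im, zero_mul,
      sub_zero]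
    rw [div_mul_eq_mul_div, div_mul_eq_mul_div, ← add_div, eq_div_iff h]
    unfold det
    ring
  · simp only [Complex.add_im, Complex.mul_im, Complex.ofReal_re, Complex.ofReal_im, zero_mul,
      add_zero]
    rw [div_mul_eq_mul_div, div_mul_eq_mul_div, ← add_div, eq_div_iff h]
    unfold det
    ring

theorem det_comb (z w : ℂ) (a b c d : ℝ) :
    det (a * z + b * w) (c * z + d * w) = (a * d - b * c) * det z w := by
  simp only [det, Complex.add_re, Complex.mul_re, Complex.ofReal_re, Complex.ofReal_im,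
    Complex.add_im, Complex.mul_im]
  ring

theorem sum_O (i : ZMod n) (u : ZMod n → ℝ) (hs : ∑ l, u l = 0) (W : ZMod n → ℂ)
    (hW : ∑ l, W l = 0) : ∑ l, O i u W l = 0 := by
  unfold O
  rw [Finset.sum_add_distrib, ← Finset.sum_mul, hW]
  have : ∑ l, (u l : ℂ) = 0 := by
    rw [← Complex.ofReal_sum, hs]; rfl
  rw [this]; ring

theorem eq_of_sum {m : ZMod n} {W W' : ZMod n → ℂ} (hW : ∑ l, W l = 0) (hW' : ∑ l, W' l = 0)
    (h : ∀ l, l ≠ m → W l = W' l) : W = W' := by
  funext l
  by_cases hl : l = m
  · subst hl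
    rw [← Finset.add_sum_erase univ _ (mem_univ l)] at hW hW'
    have : ∑ x ∈ univ.erase l, W x = ∑ x ∈ univ.erase l, W' x :=
      Finset.sum_congr rfl fun x hx => h x (Finset.ne_of_mem_erase hx)
    rw [this] at hW
    have h1 : W l = -∑ x ∈ univ.erase l, W' x := eq_neg_of_add_eq_zero_left hW
    have h2 : W' l = -∑ x ∈ univ.erase l, W' x := eq_neg_of_add_eq_zero_left hW'
    rw [h1, h2]
  · exact h l hl

theorem exists_third (hn : 3 ≤ n) (i j : ZMod n) : ∃ m : ZMod n, m ≠ i ∧ m ≠ j := by
  have h : ({i, j} : Finset (ZMod n)).card < (univ : Finset (ZMod n)).card := by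
    rw [card_univ, ZMod.card]
    exact lt_of_le_of_lt Finset.card_le_two (by omega)
  obtain ⟨m, _, hm⟩ := Finset.exists_mem_notMem_of_card_lt_card h
  rw [Finset.mem_insert, Finset.mem_singleton, not_or] at hm
  exact ⟨m, hm.1, hm.2⟩

/-- The function equal to `a` at `i`, to `b` at `j`, to `-(a + b)` at `m`. -/
def tri (i j m : ZMod n) (a b : ℝ) : ZMod n → ℝ :=
  fun l => if l = i then a else if l = j then b else if l = m then -(a + b) else 0

theorem sum_tri {i j m : ZMod n} (hij : i ≠ j) (him : m ≠ i) (hjm : m ≠ j) (a b : ℝ) :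
    ∑ l, tri i j m a b l = 0 := by
  have h : ∀ l, tri i j m a b l = (if l = i then a else 0) + (if l = j then b else 0) +
      (if l = m then -(a + b) else 0) := by
    intro l
    unfold tri
    by_cases h1 : l = i
    · subst h1; simp [hij, him.symm]
    · by_cases h2 : l = j
      · subst h2; simp [h1, hjm.symm]
      · simp [h1, h2]
  simp only [h, Finset.sum_add_distrib]
  simp

theorem R_pair (hn : 3 ≤ n) {i j m : ZMod n} (hij : i ≠ j) (him : m ≠ i) (hjm : m ≠ j)
    {W W' : ZMod n → ℂ} (hW : ∑ l, W l = 0) (hW' : ∑ l, W' l = 0)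
    (hl : ∀ l, l ≠ i → l ≠ j → l ≠ m → W l = W' l) {a b c d : ℝ} (ha : a ≠ 0)
    (had : a * d - b * c ≠ 0) (hi : W' i = a * W i + b * W j) (hj : W' j = c * W i + d * W j) :
    R W W' := by
  -- first the operation with source `j`, then the one with source `i`
  set u : ZMod n → ℝ := tri i j m (b / a) ((a * d - b * c) / a - 1) with hu
  set u' : ZMod n → ℝ := tri i j m (a - 1) c with hu'
  have s1 := sum_tri hij him hjm (b / a) ((a * d - b * c) / a - 1)
  have s2 := sum_tri hij him hjm (a - 1) c
  have h1 : R W (O j u W) := by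
    apply R_O hn j u _ s1
    rw [hu]
    simp only [tri, if_neg hij.symm, if_true]
    have : (a * d - b * c) / a ≠ 0 := div_ne_zero had ha
    intro h; apply this; linarith
  have h2 : R (O j u W) (O i u' (O j u W)) := by
    apply R_O hn i u' _ s2
    rw [hu']
    simp only [tri, if_true]
    intro h; apply ha; linarith
  have h3 : O i u' (O j u W) = W' := by
    apply eq_of_sum (m := m) (sum_O i u' s2 _ (sum_O j u s1 W hW)) hW'
    have hac : (a : ℂ) ≠ 0 := by exact_mod_cast ha
    intro l hlm
    by_cases h4 : l = i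
    · subst h4
      rw [hi]
      simp only [O, hu, hu', tri, if_true]
      push_cast
      field_simp
      ring
    · by_cases h5 : l = j
      · subst h5
        rw [hj]
        simp only [O, hu, hu', tri, if_neg hij.symm, if_true]
        push_cast
        field_simp
        ring
      · rw [← hl l h4 h5 hlm]
        simp only [O, hu, hu', tri, if_neg h4, if_neg h5, if_neg hlm]
        simp
  rw [← h3]
  exact h1.trans h2

theorem R_pair' (hn : 3 ≤ n) {i j m : ZMod n} (hij : i ≠ j) (him : m ≠ i) (hjm : m ≠ j)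
    {W W' : ZMod n → ℂ} (hW : ∑ l, W l = 0) (hW' : ∑ l, W' l = 0)
    (hl : ∀ l, l ≠ i → l ≠ j → l ≠ m → W l = W' l) {a b c d : ℝ}
    (had : a * d - b * c ≠ 0) (hi : W' i = a * W i + b * W j) (hj : W' j = c * W i + d * W j) :
    R W W' := by
  by_cases ha : a = 0
  · subst ha
    have hb : b ≠ 0 := by rintro rfl; apply had; ring
    set u : ZMod n → ℝ := tri i j m 0 1 with hu
    have s1 := sum_tri hij him hjm 0 1
    have h1 : R W (O i u W) := by
      apply R_O hn i u _ s1
      rw [hu]
      simp only [tri, if_true]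
      norm_num
    have e1 : O i u W i = W i := by
      simp only [O, hu, tri, if_true]; simp
    have e2 : O i u W j = W j + W i := by
      simp only [O, hu, tri, if_neg hij.symm, if_true]; simp
    refine h1.trans (R_pair hn hij him hjm (sum_O i u s1 W hW) hW' ?_ (a := -b) (b := b)
      (c := c - d) (d := d) (neg_ne_zero.2 hb) ?_ ?_ ?_)
    · intro l h2 h3 h4
      rw [← hl l h2 h3 h4]
      simp only [O, hu, tri, if_neg h2, if_neg h3, if_neg h4]
      simp
    · intro h; apply had; linarith
    · rw [hi, e1, e2]; push_cast; ring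
    · rw [hj, e1, e2]; push_cast; ring
  · exact R_pair hn hij him hjm hW hW' hl ha had hi hj

/-- The function equal to `α` off `i`, `j`, `m`, to `0` at `i` and `j`, and of sum `0`. -/
noncomputable def off (i j m : ZMod n) (α : ZMod n → ℝ) : ZMod n → ℝ :=
  fun l => if l = i then 0 else if l = j then 0 else
    if l = m then -∑ x ∈ univ.filter (fun x => x ≠ i ∧ x ≠ j ∧ x ≠ m), α x else α l

theorem sum_off {i j m : ZMod n} (him : m ≠ i) (hjm : m ≠ j) (α : ZMod n → ℝ) :
    ∑ l, off i j m α l = 0 := by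
  have h : ∀ l, off i j m α l = (if (l ≠ i ∧ l ≠ j ∧ l ≠ m) then α l else 0) +
      (if l = m then -∑ x ∈ univ.filter (fun x => x ≠ i ∧ x ≠ j ∧ x ≠ m), α x else 0) := by
    intro l
    unfold off
    by_cases h1 : l = i
    · subst h1; simp [him.symm]
    · by_cases h2 : l = j
      · subst h2; simp [hjm.symm]
      · by_cases h3 : l = m
        · subst h3; simp [h1, h2]
        · simp [h1, h2, h3]
  simp only [h, Finset.sum_add_distrib]
  rw [← Finset.sum_filter]
  simp

theorem R_same (hn : 3 ≤ n) {i j : ZMod n} (hij : i ≠ j) {W W' : ZMod n → ℂ}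
    (hW : ∑ l, W l = 0) (hW' : ∑ l, W' l = 0) (h : det (W i) (W j) ≠ 0)
    (h' : det (W' i) (W' j) ≠ 0) : R W W' := by
  obtain ⟨m, hmi, hmj⟩ := exists_third hn i j
  have hex : ∀ l, ∃ a b : ℝ, W' l - W l = a * W i + b * W j := fun l => solve h _
  choose α β hαβ using hex
  have s1 := sum_off hmi hmj α
  have s2 := sum_off hmi hmj β
  set W1 := O i (off i j m α) W with hW1
  set W2 := O j (off i j m β) W1 with hW2
  have r1 : R W W1 := R_O hn i _ (by simp [off]) s1 W
  have r2 : R W1 W2 := R_O hn j _ (by simp [off, hij.symm]) s2 W1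
  have z1 : ∑ l, W1 l = 0 := sum_O i _ s1 W hW
  have z2 : ∑ l, W2 l = 0 := sum_O j _ s2 W1 z1
  have e1i : W1 i = W i := by simp [hW1, O, off]
  have e1j : W1 j = W j := by simp [hW1, O, off, hij.symm]
  have e2i : W2 i = W i := by rw [hW2]; simp only [O, e1i]; simp [off]
  have e2j : W2 j = W j := by rw [hW2]; simp only [O, e1j]; simp [off, hij.symm]
  have e2l : ∀ l, l ≠ i → l ≠ j → l ≠ m → W2 l = W' l := by
    intro l h1 h2 h3
    rw [hW2]
    simp only [O, e1j]
    have : off i j m β l = β l := by simp [off, h1, h2, h3]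
    rw [this, hW1]
    simp only [O]
    have : off i j m α l = α l := by simp [off, h1, h2, h3]
    rw [this]
    have := hαβ l
    linear_combination -this
  obtain ⟨a, b, hi⟩ := solve h (W' i)
  obtain ⟨c, d, hj⟩ := solve h (W' j)
  refine (r1.trans r2).trans (R_pair' hn hij hmi hmj z2 hW' e2l (a := a) (b := b) (c := c) (d := d)
    ?_ (by rw [e2i, e2j]; exact hi) (by rw [e2i, e2j]; exact hj))
  intro h0
  apply h'
  rw [hi, hj, det_comb, h0, zero_mul]

/-- An independent pair `i, j` can be replaced by `i, l`. -/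
theorem R_swap (hn : 3 ≤ n) {i j l : ZMod n} (hij : i ≠ j) (hil : i ≠ l) {W : ZMod n → ℂ}
    (hW : ∑ x, W x = 0) (h : det (W i) (W j) ≠ 0) :
    ∃ W' : ZMod n → ℂ, ∑ x, W' x = 0 ∧ det (W' i) (W' l) ≠ 0 ∧ R W W' := by
  by_cases hjl : j = l
  · subst hjl
    exact ⟨W, hW, h, R.refl W⟩
  -- a parameter `s ≠ 1`
  obtain ⟨s, hs1, hs2⟩ : ∃ s : ℝ, s ≠ 1 ∧ det (W i) (W l) + s * det (W i) (W j) ≠ 0 := by
    by_cases h0 : det (W i) (W l) + 2 * det (W i) (W j) = 0
    · refine ⟨3, by norm_num, ?_⟩
      intro h3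
      apply h
      linarith
    · exact ⟨2, by norm_num, h0⟩
  set u : ZMod n → ℝ := fun x => s * ((if x = l then 1 else 0) - (if x = j then 1 else 0)) with hu
  have hsum : ∑ x, u x = 0 := by
    simp only [hu]
    rw [← Finset.mul_sum, Finset.sum_sub_distrib]
    simp
  refine ⟨O j u W, sum_O j u hsum W hW, ?_, R_O hn j u ?_ hsum W⟩
  · have e1 : O j u W i = W i := by
      simp [O, hu, hil, hij]
    have e2 : O j u W l = W l + s * W j := by
      simp [O, hu, Ne.symm hjl]
    rw [e1, e2]
    have : det (W i) (W l + s * W j) = det (W i) (W l) + s * det (W i) (W j) := by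
      simp only [det, Complex.add_re, Complex.mul_re, Complex.ofReal_re, Complex.ofReal_im,
        Complex.add_im, Complex.mul_im]
      ring
    rw [this]
    exact hs2
  · simp only [hu, if_neg hjl, if_true]
    intro h3
    apply hs1
    linarith

theorem det_swap (z w : ℂ) : det z w = -det w z := by unfold det; ring

theorem det_self (z : ℂ) : det z z = 0 := by unfold det; ring

/-- Any two non-collinear configurations are connected. -/
theorem R_all (hn : 3 ≤ n) {i j i' j' : ZMod n} {W W' : ZMod n → ℂ}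
    (hW : ∑ l, W l = 0) (hW' : ∑ l, W' l = 0) (h : det (W i) (W j) ≠ 0)
    (h' : det (W' i') (W' j') ≠ 0) : R W W' := by
  have hij : i ≠ j := by rintro rfl; exact h (det_self _)
  have hij' : i' ≠ j' := by rintro rfl; exact h' (det_self _)
  by_cases hi : i = i'
  · subst hi
    obtain ⟨W1, z1, d1, r1⟩ := R_swap hn hij hij' hW h
    exact r1.trans (R_same hn hij' z1 hW' d1 h')
  · obtain ⟨W1, z1, d1, r1⟩ := R_swap hn hij hi hW h
    rw [det_swap, neg_ne_zero] at d1
    obtain ⟨W2, z2, d2, r2⟩ := R_swap hn (Ne.symm hi) hij' z1 d1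
    exact (r1.trans r2).trans (R_same hn hij' z2 hW' d2 h')

end Pool.Agent.K7.H24.Centroid
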