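import Pool.Agent.K7.H16.SG.Stm

/-! # Project SG, job REC2 (copy of helper24) -/

set_option autoImplicit false

open Finset

namespace Pool.Agent.K7.H24.SGREC2

open Pool.Agent.K7.H16.SG

lemma top (hF0 : StF0) (hW : StW) (Y : Finset ℕ) (M : ℕ) (hM : ∀ a ∈ Y, a < M) :
    D (insert M Y) ≤ ∑ τ ∈ words Y, f (τ ++ [M]) ^ 2 := by
  classical
  unfold D
  have h1 : ∑ w ∈ words (insert M Y), f w ^ 2 ≤
      ∑ w ∈ (words Y).image (fun τ => τ ++ [M]), f w ^ 2 := by
    apply Finset.sum_le_sum_of_ne_zero
    intro w hw hne
    have hf : f w ≠ 0 := by intro h; simp [h] at hne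
    rw [hW.1] at hw
    obtain ⟨hnd, hset⟩ := hw
    have hne' : w ≠ [] := by
      rintro rfl
      rw [List.toFinset_nil] at hset
      exact absurd hset.symm (Finset.insert_ne_empty _ _)
    obtain ⟨τ, m, rfl, hlt⟩ := hF0 w hnd hf hne'
    have hmem : ∀ x, x ∈ τ ++ [m] ↔ x ∈ insert M Y := by
      intro x
      rw [← hset, List.mem_toFinset]
    have hMm : M = m := by
      have h1 := (hmem M).2 (mem_insert_self _ _)
      have h2 := (hmem m).1 (by simp)
      rw [mem_insert] at h2
      rcases h2 with h2 | h2
      · exact h2.symm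
      · have h3 := hM m h2
        rw [List.mem_append, List.mem_singleton] at h1
        rcases h1 with h1 | h1
        · have := hlt M h1
          omega
        · exact h1
    subst hMm
    rw [mem_image]
    refine ⟨τ, ?_, rfl⟩
    rw [hW.1]
    rw [List.nodup_append] at hnd
    refine ⟨hnd.1, ?_⟩
    ext x
    rw [List.mem_toFinset]
    constructor
    · intro hx
      have h1 := (hmem x).1 (by simp [hx])
      rw [mem_insert] at h1
      rcases h1 with h1 | h1
      · have := hlt x hx
        omega
      · exact h1
    · intro hx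
      have h1 := (hmem x).2 (mem_insert_of_mem hx)
      rw [List.mem_append, List.mem_singleton] at h1
      rcases h1 with h1 | h1
      · exact h1
      · have := hM x hx
        omega
  refine h1.trans (le_of_eq ?_)
  rw [Finset.sum_image]
  intro a _ b _ hab
  exact List.append_cancel_right hab

/-- the pointwise inequality -/
lemma point (hF1 : StF1) (hF0 : StF0) (hW : StW) (A : Finset ℕ) (M' M : ℕ)
    (hA : ∀ a ∈ A, a < M') (hM : M' < M) (τ : List ℕ) (hτ : τ ∈ words (insert M' A)) :
    f (τ ++ [M]) ^ 2 ≤
      ∑ i ∈ range (A.card + 1), (if M' ∈ τ.take i then f (τ.take i) ^ 2 else 0) *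
        f (τ.drop i) ^ 2 +
      (A.card + 2) * (∑ i ∈ range (A.card + 1),
        (if M' ∈ τ.take i then 0 else f (τ.take i) ^ 2) * f (τ.drop i) ^ 2 + f τ ^ 2) := by
  classical
  rw [hW.1] at hτ
  obtain ⟨hnd, hset⟩ := hτ
  have hmem : ∀ x, x ∈ τ ↔ x = M' ∨ x ∈ A := by
    intro x
    rw [← List.mem_toFinset, hset, mem_insert]
  have hle : ∀ x ∈ τ, x ≤ M' := by
    intro x hx
    rcases (hmem x).1 hx with h | h
    · exact h.le
    · exact (hA x h).le
  have hMA : M' ∉ A := fun h => lt_irrefl _ (hA _ h)
  have hlen : τ.length = A.card + 1 := by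
    rw [← List.toFinset_card_of_nodup hnd, hset, card_insert_of_notMem hMA]
  rw [hF1 τ M hnd (fun a ha => lt_of_le_of_lt (hle a ha) hM), hlen]
  by_cases hlast : ∃ τ', τ = τ' ++ [M']
  · obtain ⟨τ', hτ'⟩ := hlast
    refine le_trans ?_ (Nat.le_add_left _ _)
    have h1 := sq_sum_le_card_mul_sum_sq (s := range (A.card + 1 + 1))
      (f := fun i => f (τ.take i) * f (τ.drop i))
    rw [card_range] at h1
    refine h1.trans ?_
    refine Nat.mul_le_mul_left _ ?_
    rw [sum_range_succ]
    refine Nat.add_le_add ?_ ?_
    · refine Finset.sum_le_sum fun i hi => ?_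
      rw [mem_range] at hi
      have hnot : M' ∉ τ.take i := by
        intro hmem'
        rw [hτ'] at hnd hmem' hlen
        rw [List.length_append, List.length_singleton] at hlen
        rw [List.take_append_of_le_length (by omega)] at hmem'
        rw [List.nodup_append] at hnd
        exact hnd.2.2 M' (List.mem_of_mem_take hmem') M' (by simp) rfl
      rw [if_neg hnot, mul_pow]
    · rw [← hlen, List.take_length, List.drop_length, hW.2.2.1, mul_one]
  · refine le_trans ?_ (Nat.le_add_right _ _)
    have key : ∀ i ∈ range (A.card + 1 + 1), f (τ.take i) * f (τ.drop i) ≠ 0 →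
        i = τ.idxOf M' + 1 ∧ i < A.card + 1 ∧ M' ∈ τ.take i := by
      intro i hi hne
      rw [mem_range] at hi
      have hne1 : f (τ.take i) ≠ 0 := left_ne_zero_of_mul hne
      have hne2 : f (τ.drop i) ≠ 0 := right_ne_zero_of_mul hne
      have hMτ : M' ∈ τ.take i ++ τ.drop i := by
        rw [List.take_append_drop]
        exact (hmem M').2 (Or.inl rfl)
      have hsplit : ∀ u : List ℕ, u.Nodup → (∀ x ∈ u, x ∈ τ) → f u ≠ 0 → M' ∈ u →
          ∃ ρ, u = ρ ++ [M'] := by
        intro u hu hsub hfu hMu
        obtain ⟨ρ, m, hρ, hlt⟩ := hF0 u hu hfu (List.ne_nil_of_mem hMu)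
        refine ⟨ρ, ?_⟩
        have h1 : m ≤ M' := hle m (hsub m (by rw [hρ]; simp))
        rw [hρ, List.mem_append, List.mem_singleton] at hMu
        rcases hMu with h | h
        · have := hlt M' h
          omega
        · rw [hρ, h]
      rw [List.mem_append] at hMτ
      rcases hMτ with h | h
      · obtain ⟨ρ, hρ⟩ := hsplit _ (hnd.sublist (List.take_sublist _ _))
          (fun x hx => List.mem_of_mem_take hx) hne1 h
        have hlen2 : (τ.take i).length = i := by
          rw [List.length_take, hlen]
          omega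
        have hi2 : i = ρ.length + 1 := by
          rw [hρ, List.length_append, List.length_singleton] at hlen2
          omega
        have hτeq : τ = ρ ++ M' :: τ.drop i := by
          conv_lhs => rw [← List.take_append_drop i τ, hρ]
          simp
        have hnotρ : M' ∉ ρ := by
          have h3 : (τ.take i).Nodup := hnd.sublist (List.take_sublist _ _)
          rw [hρ, List.nodup_append] at h3
          intro h4
          exact h3.2.2 M' h4 M' (by simp) rfl
        refine ⟨?_, ?_, h⟩
        · have h5 : τ.idxOf M' = ρ.length := by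
            rw [hτeq, List.idxOf_append_of_notMem hnotρ, List.idxOf_cons_self, Nat.add_zero]
          rw [h5, hi2]
        · by_contra hcon
          have : i = τ.length := by omega
          rw [this, List.take_length] at hρ
          exact hlast ⟨ρ, hρ⟩
      · exfalso
        obtain ⟨ρ, hρ⟩ := hsplit _ (hnd.sublist (List.drop_sublist _ _))
          (fun x hx => List.mem_of_mem_drop hx) hne2 h
        apply hlast
        refine ⟨τ.take i ++ ρ, ?_⟩
        rw [List.append_assoc, ← hρ, List.take_append_drop]
    by_cases hz : ∃ i ∈ range (A.card + 1 + 1), f (τ.take i) * f (τ.drop i) ≠ 0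
    · obtain ⟨i, hi, hne⟩ := hz
      obtain ⟨k1, k2, k3⟩ := key i hi hne
      have h1 : ∑ j ∈ range (A.card + 1 + 1), f (τ.take j) * f (τ.drop j) =
          f (τ.take i) * f (τ.drop i) := by
        apply Finset.sum_eq_single i
        · intro j hj hji
          by_contra hne'
          exact hji ((key j hj hne').1.trans k1.symm)
        · intro h
          exact absurd hi h
      rw [h1]
      have h2 := Finset.single_le_sum (s := range (A.card + 1))
        (f := fun i => (if M' ∈ τ.take i then f (τ.take i) ^ 2 else 0) * f (τ.drop i) ^ 2)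
        (fun _ _ => Nat.zero_le _) (mem_range.2 k2)
      refine le_trans (le_of_eq ?_) h2
      simp only [if_pos k3, mul_pow]
    · push Not at hz
      rw [Finset.sum_eq_zero hz]
      simp

lemma sum_lt_powerset (Y : Finset ℕ) (n : ℕ) (hn : Y.card = n + 1) (F : Finset ℕ → ℕ) :
    ∑ i ∈ range (n + 1), ∑ C ∈ powersetCard i Y, F C + F Y = ∑ C ∈ Y.powerset, F C := by
  rw [Finset.sum_powerset, hn, sum_range_succ _ (n + 1)]
  congr 1
  rw [← hn, powersetCard_self, sum_singleton]

theorem t (hF1 : StF1) (hF0 : StF0) (hW : StW) (hSpl : StSpl) : StRec2 := by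
  classical
  intro A M' M hA hM
  have hMA : M' ∉ A := fun h => lt_irrefl _ (hA _ h)
  have hcard : (insert M' A).card = A.card + 1 := card_insert_of_notMem hMA
  refine (top hF0 hW (insert M' A) M ?_).trans ?_
  · intro a ha
    rw [mem_insert] at ha
    rcases ha with h | h
    · rw [h]; exact hM
    · exact (hA a h).trans hM
  refine (Finset.sum_le_sum fun τ hτ => point hF1 hF0 hW A M' M hA hM τ hτ).trans ?_
  rw [Finset.sum_add_distrib, ← Finset.mul_sum, Finset.sum_add_distrib]
  have hD : ∀ C : Finset ℕ, ∑ v ∈ words C, (fun v => f v ^ 2) v = D C := fun C => rfl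
  have hg1 : ∀ C : Finset ℕ, ∑ u ∈ words C, (fun u : List ℕ => if M' ∈ u then f u ^ 2 else 0) u =
      if M' ∈ C then D C else 0 := by
    intro C
    by_cases h : M' ∈ C
    · rw [if_pos h]
      unfold D
      refine Finset.sum_congr rfl fun u hu => ?_
      rw [hW.1] at hu
      have : M' ∈ u := by rw [← List.mem_toFinset, hu.2]; exact h
      simp only [if_pos this]
    · rw [if_neg h]
      refine Finset.sum_eq_zero fun u hu => ?_
      rw [hW.1] at hu
      have : M' ∉ u := by rw [← List.mem_toFinset, hu.2]; exact h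
      simp only [if_neg this]
  have hg2 : ∀ C : Finset ℕ, ∑ u ∈ words C, (fun u : List ℕ => if M' ∈ u then 0 else f u ^ 2) u =
      if M' ∈ C then 0 else D C := by
    intro C
    by_cases h : M' ∈ C
    · rw [if_pos h]
      refine Finset.sum_eq_zero fun u hu => ?_
      rw [hW.1] at hu
      have : M' ∈ u := by rw [← List.mem_toFinset, hu.2]; exact h
      simp only [if_pos this]
    · rw [if_neg h]
      unfold D
      refine Finset.sum_congr rfl fun u hu => ?_
      rw [hW.1] at hu
      have : M' ∉ u := by rw [← List.mem_toFinset, hu.2]; exact h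
      simp only [if_neg this]
  have e1 : ∑ τ ∈ words (insert M' A), ∑ i ∈ range (A.card + 1),
      (if M' ∈ τ.take i then f (τ.take i) ^ 2 else 0) * f (τ.drop i) ^ 2 =
      ∑ B ∈ A.powerset.erase A, D (insert M' B) * D (A \ B) := by
    rw [Finset.sum_comm]
    have h1 : ∀ i ∈ range (A.card + 1), ∑ τ ∈ words (insert M' A),
        (if M' ∈ τ.take i then f (τ.take i) ^ 2 else 0) * f (τ.drop i) ^ 2 =
        ∑ C ∈ powersetCard i (insert M' A), (if M' ∈ C then D C else 0) *
          D ((insert M' A) \ C) := by
      intro i hi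
      rw [mem_range] at hi
      have h := hSpl (insert M' A) i (fun u => if M' ∈ u then f u ^ 2 else 0)
        (fun v => f v ^ 2) (by omega)
      refine h.trans (Finset.sum_congr rfl fun C _ => ?_)
      rw [hg1, hD]
    rw [Finset.sum_congr rfl h1]
    have h2 := sum_lt_powerset (insert M' A) A.card hcard
      (fun C => (if M' ∈ C then D C else 0) * D ((insert M' A) \ C))
    rw [Finset.sum_powerset_insert hMA] at h2
    have h3 : ∑ C ∈ A.powerset, (if M' ∈ C then D C else 0) * D ((insert M' A) \ C) = 0 := by
      refine Finset.sum_eq_zero fun C hC => ?_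
      rw [if_neg (fun h => hMA (mem_powerset.1 hC h)), zero_mul]
    have h4 : ∑ C ∈ A.powerset, (if M' ∈ insert M' C then D (insert M' C) else 0) *
        D ((insert M' A) \ (insert M' C)) = ∑ C ∈ A.powerset, D (insert M' C) * D (A \ C) := by
      refine Finset.sum_congr rfl fun C hC => ?_
      rw [if_pos (mem_insert_self _ _)]
      congr 2
      ext x
      simp only [mem_sdiff, mem_insert]
      constructor
      · rintro ⟨h | h, h'⟩
        · exact absurd (Or.inl h) h'
        · exact ⟨h, fun h'' => h' (Or.inr h'')⟩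
      · rintro ⟨h, h'⟩
        refine ⟨Or.inr h, ?_⟩
        rintro (h'' | h'')
        · exact hMA (h'' ▸ h)
        · exact h' h''
    have h5 := Finset.sum_erase_add A.powerset (fun C => D (insert M' C) * D (A \ C))
      (mem_powerset_self A)
    simp only at h2 h5
    rw [h3, h4, zero_add, ← h5, if_pos (mem_insert_self _ _)] at h2
    have h6 : insert M' A \ insert M' A = A \ A := by simp
    rw [h6] at h2
    exact Nat.add_right_cancel h2
  have e2 : ∑ τ ∈ words (insert M' A), ∑ i ∈ range (A.card + 1),
      (if M' ∈ τ.take i then 0 else f (τ.take i) ^ 2) * f (τ.drop i) ^ 2 ≤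
      ∑ B ∈ A.powerset, D B * D (insert M' (A \ B)) := by
    rw [Finset.sum_comm]
    have h1 : ∀ i ∈ range (A.card + 1), ∑ τ ∈ words (insert M' A),
        (if M' ∈ τ.take i then 0 else f (τ.take i) ^ 2) * f (τ.drop i) ^ 2 =
        ∑ C ∈ powersetCard i (insert M' A), (if M' ∈ C then 0 else D C) *
          D ((insert M' A) \ C) := by
      intro i hi
      rw [mem_range] at hi
      have h := hSpl (insert M' A) i (fun u => if M' ∈ u then 0 else f u ^ 2)
        (fun v => f v ^ 2) (by omega)
      refine h.trans (Finset.sum_congr rfl fun C _ => ?_)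
      rw [hg2, hD]
    rw [Finset.sum_congr rfl h1]
    have h2 := sum_lt_powerset (insert M' A) A.card hcard
      (fun C => (if M' ∈ C then 0 else D C) * D ((insert M' A) \ C))
    rw [Finset.sum_powerset_insert hMA] at h2
    have h3 : ∑ C ∈ A.powerset, (if M' ∈ C then 0 else D C) * D ((insert M' A) \ C) =
        ∑ B ∈ A.powerset, D B * D (insert M' (A \ B)) := by
      refine Finset.sum_congr rfl fun C hC => ?_
      have hn : M' ∉ C := fun h => hMA (mem_powerset.1 hC h)
      rw [if_neg hn, Finset.insert_sdiff_of_notMem _ hn]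
    have h4 : ∑ C ∈ A.powerset, (if M' ∈ insert M' C then 0 else D (insert M' C)) *
        D ((insert M' A) \ (insert M' C)) = 0 := by
      refine Finset.sum_eq_zero fun C hC => ?_
      rw [if_pos (mem_insert_self _ _), zero_mul]
    simp only at h2
    rw [h3, h4, add_zero] at h2
    omega
  rw [e1]
  have e3 : ∑ τ ∈ words (insert M' A), f τ ^ 2 = D (insert M' A) := rfl
  rw [e3]
  gcongr

end Pool.Agent.K7.H24.SGREC2
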